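import Mathlib

/-!
# Minimal squares over a three letter alphabet: definitions and basic checks
-/

namespace Pool.Agent.helper19.MinSq

/-- `w` is a square. -/
def IsSq (w : List (Fin 3)) : Prop := ∃ x : List (Fin 3), x ≠ [] ∧ w = x ++ x

/-- `w` is a minimal square: a square such that no factor other than `w` is a square. -/
def MinimalSquare (w : List (Fin 3)) : Prop := IsSq w ∧ ∀ v : List (Fin 3), v <:+: w → IsSq v → v = w

/-- The number of minimal squares of length `n`. -/
noncomputable def s (n : ℕ) : ℕ := Set.ncard {w : List (Fin 3) | w.length = n ∧ MinimalSquare w}

/-- `F` has a square of period `p` at position `a`. -/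
def Sq (F : ℕ → Fin 3) (a p : ℕ) : Prop := ∀ i < p, F (a + i) = F (a + p + i)

/-- The word `F a, F (a + 1), ..., F (a + n - 1)`. -/
def window (F : ℕ → Fin 3) (a n : ℕ) : List (Fin 3) := (List.range n).map fun i => F (a + i)

theorem length_window (F : ℕ → Fin 3) (a n : ℕ) : (window F a n).length = n := by
  simp [window]

theorem getElem_window (F : ℕ → Fin 3) (a n i : ℕ) (h : i < (window F a n).length) :
    (window F a n)[i] = F (a + i) := by
  simp [window]

theorem window_congr {F G : ℕ → Fin 3} {a b n : ℕ} (h : ∀ i < n, F (a + i) = G (b + i)) :
    window F a n = window G b n := by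
  unfold window
  refine List.map_congr_left fun i hi => h i (List.mem_range.1 hi)

theorem window_inj {F G : ℕ → Fin 3} {a b n : ℕ} (h : window F a n = window G b n) (i : ℕ)
    (hi : i < n) : F (a + i) = G (b + i) := by
  have h1 : i < (window F a n).length := by rwa [length_window]
  have h2 : i < (window G b n).length := by rwa [length_window]
  rw [← getElem_window F a n i h1, ← getElem_window G b n i h2]
  simp only [h]

theorem window_append (F : ℕ → Fin 3) (a n k : ℕ) :
    window F a (n + k) = window F a n ++ window F (a + n) k := by
  unfold window
  rw [List.range_add, List.map_append, List.map_map]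
  congr 1
  refine List.map_congr_left fun i _ => ?_
  simp [Nat.add_assoc]

theorem take_window (F : ℕ → Fin 3) (a n k : ℕ) (h : k ≤ n) :
    (window F a n).take k = window F a k := by
  obtain ⟨j, rfl⟩ := Nat.exists_eq_add_of_le h
  rw [window_append, List.take_left' (length_window F a k)]

theorem drop_window (F : ℕ → Fin 3) (a n k : ℕ) (h : k ≤ n) :
    (window F a n).drop k = window F (a + k) (n - k) := by
  obtain ⟨j, rfl⟩ := Nat.exists_eq_add_of_le h
  rw [window_append, List.drop_left' (length_window F a k), Nat.add_sub_cancel_left]

/-- `cen A acc B`: for no `p ≥ 1` the reversed prefix of length `p` of `B`, followed by `acc`, is a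
prefix of `A`. -/
def cen : List (Fin 3) → List (Fin 3) → List (Fin 3) → Bool
  | _, _, [] => true
  | A, acc, r :: rs => !((r :: acc).isPrefixOf A) && cen A (r :: acc) rs

theorem cen_iff (A acc B : List (Fin 3)) : cen A acc B = true ↔
    ∀ p, 1 ≤ p → p ≤ B.length → ¬ ((B.take p).reverse ++ acc) <+: A := by
  induction B generalizing acc with
  | nil =>
    simp only [cen, List.length_nil, true_iff]
    intro p h1 h2
    omega
  | cons r rs ih =>
    rw [cen, Bool.and_eq_true, ih, Bool.not_eq_true', ← Bool.not_eq_true, List.isPrefixOf_iff_prefix]
    constructor
    · rintro ⟨h1, h2⟩ p hp hp'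
      obtain ⟨q, rfl⟩ : ∃ q, p = q + 1 := ⟨p - 1, by omega⟩
      rcases Nat.eq_zero_or_pos q with rfl | hq
      · simpa using h1
      · have := h2 q hq (by simpa using hp')
        simpa using this
    · intro h
      constructor
      · have := h 1 le_rfl (by simp)
        simpa using this
      · intro p hp hp'
        have := h (p + 1) (by omega) (by simpa using hp')
        simpa using this

/-- No square with centre at `a + n`, first half inside `[a, a + n)` and second half inside
`[a + n, a + n + k)`. -/
theorem cen_window (F : ℕ → Fin 3) (a n k : ℕ) :
    cen (window F a n).reverse [] (window F (a + n) k) = true ↔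
      ∀ p, 1 ≤ p → p ≤ n → p ≤ k → ¬ Sq F (a + n - p) p := by
  rw [cen_iff]
  constructor
  · intro h p hp hn hk hsq
    refine h p hp (by rwa [length_window]) ?_
    rw [List.append_nil, take_window F _ k p hk]
    have h1 : window F (a + n) p = window F (a + n - p) p := by
      apply window_congr
      intro i hi
      rw [hsq i hi]
      congr 1
      omega
    have h2 : window F a n = window F a (n - p) ++ window F (a + n - p) p := by
      conv_lhs => rw [show n = (n - p) + p by omega, window_append]
      congr 2
      omega
    rw [h1, h2, List.reverse_append]
    exact List.prefix_append _ _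
  · intro h p hp hk hpre
    rw [length_window] at hk
    rw [List.append_nil, take_window F _ k p hk] at hpre
    have hn : p ≤ n := by
      have := hpre.length_le
      rwa [List.length_reverse, length_window, List.length_reverse, length_window] at this
    apply h p hp hn hk
    have h2 : window F a n = window F a (n - p) ++ window F (a + n - p) p := by
      conv_lhs => rw [show n = (n - p) + p by omega, window_append]
      congr 2
      omega
    rw [h2, List.reverse_append] at hpre
    have h3 := List.prefix_iff_eq_take.1 hpre
    rw [List.take_left' (by rw [List.length_reverse, List.length_reverse, length_window,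
      length_window])] at h3
    have h4 := List.reverse_injective h3
    intro i hi
    have h5 := window_inj h4 i hi
    rw [← h5]
    congr 1
    omega

/-- There is no square in `[a, a + n)`. -/
def NoSq (F : ℕ → Fin 3) (a n : ℕ) : Prop :=
  ∀ b p, 0 < p → a ≤ b → b + 2 * p ≤ a + n → ¬ Sq F b p

/-- Boolean test for words without squares. -/
def sqfB (V : List (Fin 3)) : Bool :=
  (List.range (V.length + 1)).all fun c => cen (V.take c).reverse [] (V.drop c)

theorem sqfB_window (F : ℕ → Fin 3) (a n : ℕ) : sqfB (window F a n) = true ↔ NoSq F a n := by
  unfold sqfB
  rw [List.all_eq_true, length_window]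
  constructor
  · intro h b p hp hb hbn hsq
    have hc : b + p - a ≤ n := by omega
    have h1 := h (b + p - a) (List.mem_range.2 (by omega))
    rw [take_window F a n _ hc, drop_window F a n _ hc, cen_window] at h1
    refine h1 p hp (by omega) (by omega) ?_
    rwa [show a + (b + p - a) - p = b by omega]
  · intro h c hc
    have hc' : c ≤ n := by
      have := List.mem_range.1 hc
      omega
    rw [take_window F a n c hc', drop_window F a n c hc', cen_window]
    intro p hp h1 h2 hsq
    exact h _ p hp (by omega) (by omega) hsq

/-- The word with letters the base 3 digits of `n`. -/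
def dec : ℕ → ℕ → List (Fin 3)
  | 0, _ => []
  | k + 1, n => ⟨n % 3, Nat.mod_lt _ (by decide)⟩ :: dec k (n / 3)

theorem length_dec (k n : ℕ) : (dec k n).length = k := by
  induction k generalizing n with
  | zero => rfl
  | succ k ih => rw [dec, List.length_cons, ih]

/-- Every word is a window. -/
theorem window_getD (X : List (Fin 3)) (n : ℕ) (h : X.length = n) :
    window (fun i => X.getD i 0) 0 n = X := by
  apply List.ext_getElem
  · rw [length_window, h]
  · intro i h1 h2
    rw [getElem_window, Nat.zero_add]
    exact List.getD_eq_getElem _ _ h2

/-- The criterion for minimal squares. -/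
theorem minSq_iff (F : ℕ → Fin 3) (m : ℕ) (hm : 0 < m) (hper : ∀ i, F (i + m) = F i) :
    MinimalSquare (window F 0 m ++ window F 0 m) ↔
      ∀ a p, 0 < p → p < m → a + 2 * p ≤ 2 * m → ¬ Sq F a p := by
  have hww : window F 0 m ++ window F 0 m = window F 0 (2 * m) := by
    rw [two_mul, window_append]
    congr 1
    apply window_congr
    intro i _
    rw [Nat.zero_add, Nat.zero_add, Nat.add_comm m i, hper]
  constructor
  · rintro ⟨_, h⟩ a p hp hpm ha hsq
    have h1 : window F a p ++ window F a p <:+: window F 0 m ++ window F 0 m := by
      rw [hww]
      have h2 : window F 0 (2 * m) = window F 0 a ++ (window F a p ++ window F a p) ++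
          window F (a + 2 * p) (2 * m - (a + 2 * p)) := by
        conv_lhs => rw [show 2 * m = a + (p + p) + (2 * m - (a + 2 * p)) by omega, window_append,
          window_append, window_append]
        have h3 : window F (0 + a + p) p = window F (0 + a) p := by
          apply window_congr
          intro i hi
          rw [Nat.zero_add]
          exact (hsq i hi).symm
        rw [h3, Nat.zero_add, Nat.zero_add]
        congr 2
        omega
      rw [h2]
      exact List.infix_append _ _ _
    have h2 := h _ h1 ⟨window F a p, by
      intro h0
      have := congrArg List.length h0
      rw [length_window] at this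
      simp at this
      omega, rfl⟩
    have h3 := congrArg List.length h2
    simp only [List.length_append, length_window] at h3
    omega
  · intro h
    refine ⟨⟨window F 0 m, ?_, rfl⟩, ?_⟩
    · intro h0
      have := congrArg List.length h0
      rw [length_window] at this
      simp at this
      omega
    · rintro v ⟨a, b, hv⟩ ⟨y, hy0, rfl⟩
      rw [hww] at hv ⊢
      have hy : 0 < y.length := List.length_pos_iff.2 hy0
      have hlen := congrArg List.length hv
      simp only [List.length_append, length_window] at hlen
      have e1 : y = window F a.length y.length := by
        have h1 := congrArg (fun l => (l.drop a.length).take y.length) hv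
        beta_reduce at h1
        rw [drop_window _ _ _ _ (by omega), take_window _ _ _ _ (by omega), List.append_assoc,
          List.drop_left' rfl, List.append_assoc, List.take_left' rfl, Nat.zero_add] at h1
        exact h1
      have e2 : y = window F (a.length + y.length) y.length := by
        have h1 := congrArg (fun l => (l.drop (a ++ y).length).take y.length) hv
        beta_reduce at h1
        rw [drop_window _ _ _ _ (by rw [List.length_append]; omega),
          take_window _ _ _ _ (by rw [List.length_append]; omega),
          show a ++ (y ++ y) ++ b = (a ++ y) ++ (y ++ b) by simp only [List.append_assoc],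
          List.drop_left' rfl, List.take_left' rfl, Nat.zero_add, List.length_append] at h1
        exact h1
      by_cases hym : y.length < m
      · exfalso
        refine h a.length y.length hy hym (by omega) ?_
        intro i hi
        exact window_inj (e1.symm.trans e2) i hi
      · have ha : a = [] := List.length_eq_zero_iff.1 (by omega)
        have hb : b = [] := List.length_eq_zero_iff.1 (by omega)
        rw [ha, hb, List.nil_append, List.append_nil] at hv
        exact hv

end Pool.Agent.helper19.MinSq
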