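import Pool.Agent.helper19.MinSq.Small

/-!
# The exceptional lengths
-/

namespace Pool.Agent.helper19.MinSq

/-- Test for square prefixes. -/
def preOK (w : List (Fin 3)) : Bool :=
  (List.range (w.length / 2)).all fun p => !(w.take (p + 1)).isPrefixOf (w.drop (p + 1))

/-- The words of length `n` without squares. -/
def ext : ℕ → List (List (Fin 3))
  | 0 => [[]]
  | n + 1 => (ext n).flatMap fun w => [0 :: w, 1 :: w, 2 :: w].filter preOK

theorem mem_ext (X : List (Fin 3)) (h : sqfB X = true) : X ∈ ext X.length := by
  induction X with
  | nil => exact List.mem_singleton.2 rfl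
  | cons a w ih =>
    have e1 : window (fun i => (a :: w).getD i 0) 0 (w.length + 1) = a :: w :=
      window_getD (a :: w) (w.length + 1) rfl
    have e2 : window (fun i => (a :: w).getD i 0) 1 w.length = w := by
      have := drop_window (fun i => (a :: w).getD i 0) 0 (w.length + 1) 1 (by omega)
      rw [e1] at this
      simpa using this.symm
    rw [← e1, sqfB_window] at h
    have h1 : sqfB w = true := by
      rw [← e2, sqfB_window]
      intro b p hp hb hb'
      exact h b p hp (by omega) (by omega)
    rw [List.length_cons, ext, List.mem_flatMap]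
    refine ⟨w, ih h1, ?_⟩
    rw [List.mem_filter]
    refine ⟨by fin_cases a <;> simp, ?_⟩
    unfold preOK
    rw [List.all_eq_true]
    intro p hp
    have hp' : p < (w.length + 1) / 2 := List.mem_range.1 hp
    rw [Bool.not_eq_true', ← Bool.not_eq_true, List.isPrefixOf_iff_prefix]
    intro hpre
    rw [← e1, take_window _ _ _ _ (by omega), drop_window _ _ _ _ (by omega)] at hpre
    have h2 := List.prefix_iff_eq_take.1 hpre
    rw [length_window, take_window _ _ _ _ (by omega)] at h2
    refine h 0 (p + 1) (by omega) le_rfl (by omega) ?_
    intro i hi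
    exact window_inj h2 i hi

theorem none_small : ∀ m ∈ [5, 7, 9, 10, 14, 17], (ext m).all (fun X => !minB X) = true := by
  decide +kernel

theorem not_exists (m : ℕ) (hm : m ∈ [5, 7, 9, 10, 14, 17]) (w : List (Fin 3))
    (hw : w.length = 2 * m) : ¬ MinimalSquare w := by
  intro h
  obtain ⟨X, hX, rfl⟩ := h.1
  have hX0 : 0 < X.length := List.length_pos_iff.2 hX
  have hXm : X.length = m := by
    rw [List.length_append] at hw
    omega
  have h1 := (minB_iff X hX0).2 h
  have h2 := (minB_iff' X).1 h1
  have h3 : sqfB X = true := by
    have h4 : NoSq (G X) 0 X.length := by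
      intro b p hp _ hb
      exact h2 b p hp (by omega) (by omega)
    have h5 := (sqfB_window _ _ _).2 h4
    rwa [window_G] at h5
  have h4 := mem_ext X h3
  rw [hXm] at h4
  have h5 := List.all_eq_true.1 (none_small m hm) X h4
  rw [h1] at h5
  simp at h5

end Pool.Agent.helper19.MinSq
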