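import Pool.Agent.helper19.MinSq.TabDef

/-!
# Long minimal squares
-/

namespace Pool.Agent.helper19.MinSq

/-- The periodic word: a factor of `W` of length `n` starting at `4`, followed by `T`. -/
def F (n : ℕ) (T : List (Fin 3)) (i : ℕ) : Fin 3 :=
  if i % (n + T.length) < n then W (4 + i % (n + T.length))
  else T.getD (i % (n + T.length) - n) 0

section

variable (n : ℕ) (T : List (Fin 3))

theorem F_mod (i : ℕ) : F n T (i % (n + T.length)) = F n T i := by
  unfold F
  rw [Nat.mod_mod]

theorem F_add (i : ℕ) : F n T (i + (n + T.length)) = F n T i := by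
  unfold F
  rw [Nat.add_mod_right]

theorem F_lo {i : ℕ} (h : i < n) : F n T i = W (4 + i) := by
  unfold F
  rw [Nat.mod_eq_of_lt (by omega), if_pos h]

theorem F_hi {i : ℕ} (h : i < T.length) : F n T (n + i) = T[i] := by
  unfold F
  rw [Nat.mod_eq_of_lt (by omega), if_neg (by omega), Nat.add_sub_cancel_left,
    List.getD_eq_getElem _ _ h]

theorem F_window_mod (i k : ℕ) : window (F n T) (i % (n + T.length)) k = window (F n T) i k := by
  apply window_congr
  intro j _
  rw [← F_mod n T (i + j), ← F_mod n T (i % (n + T.length) + j), Nat.mod_add_mod]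

theorem window_T : window (F n T) n T.length = T := by
  apply List.ext_getElem
  · rw [length_window]
  · intro i h1 h2
    rw [getElem_window, F_hi n T h2]

theorem window_W {a k : ℕ} (h : a + k ≤ n) : window (F n T) a k = window W (4 + a) k := by
  apply window_congr
  intro i hi
  rw [F_lo n T (by omega), Nat.add_assoc]

theorem window_W' {a k : ℕ} (h : a + k ≤ n) :
    window (F n T) (n + T.length + a) k = window W (4 + a) k := by
  rw [← window_W n T h]
  apply window_congr
  intro i _
  rw [show n + T.length + a + i = a + i + (n + T.length) by ring, F_add]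

end

theorem mod_contra {m q p r : ℕ} (h1 : q % m = r) (h2 : (q + p) % m = r) (hp : 0 < p)
    (hpm : p < m) : False := by
  have h3 : (q + p - q) % m = 0 := Nat.sub_mod_eq_zero_of_mod_eq (h2.trans h1.symm)
  rw [Nat.add_sub_cancel_left, Nat.mod_eq_of_lt hpm] at h3
  omega

theorem window_W_four : window W 1 4 = [1, 2, 1, 0] := by
  have e1 : W 1 = 1 := by rw [W_eq]; show W 0 + hh 1 = 1; rw [W_zero]; rfl
  have e2 : W 2 = 2 := by rw [W_eq]; show W 0 + hh 2 = 2; rw [W_zero]; rfl
  have e3 : W 3 = 1 := by rw [W_eq]; show W 0 + hh 3 = 1; rw [W_zero]; rfl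
  have e4 : W 4 = 0 := by rw [W_eq]; show W 0 + hh 4 = 0; rw [W_zero]; rfl
  show [W (1 + 0), W (1 + 1), W (1 + 2), W (1 + 3)] = _
  simp only [Nat.reduceAdd, e1, e2, e3, e4]

theorem long_minimal (l : ℕ) (hl : 4 ≤ l) (T : List (Fin 3)) (hT5 : 5 ≤ T.length)
    (hT : T.length ≤ 29) (hg : good (W (l + 1)) T = true) :
    MinimalSquare (window (F (13 * l + 18) T) 0 (13 * l + 18 + T.length) ++
      window (F (13 * l + 18) T) 0 (13 * l + 18 + T.length)) := by
  obtain ⟨n, hn⟩ : ∃ n, n = 13 * l + 18 := ⟨_, rfl⟩
  obtain ⟨t, ht⟩ : ∃ t, t = T.length := ⟨_, rfl⟩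
  obtain ⟨m, hm⟩ : ∃ m, m = n + T.length := ⟨_, rfl⟩
  rw [← hn, ← hm]
  rw [minSq_iff _ _ (by omega) (by rw [hm]; exact F_add n T)]
  -- the zone
  have hZ : window (F n T) (n - 9) (t + 18) = zone (W (l + 1)) T := by
    rw [show t + 18 = 9 + t + 9 by ring, window_append, window_append,
      show n - 9 + 9 = n by omega, show n - 9 + (9 + t) = n + T.length + 0 by omega,
      window_W' n T (by omega), window_W n T (by omega), ht, window_T,
      show 4 + (n - 9) = 13 * (l + 1) by omega]
    have e1 : window W (13 * (l + 1)) 9 = (h1 (W (l + 1))).take 9 := by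
      rw [← window_block, take_window _ _ _ _ (by decide)]
    have e2 : window W (4 + 0) 9 = (h1 0).drop 4 := by
      have e3 := window_block 0
      rw [W_zero] at e3
      rw [← e3, drop_window _ _ _ _ (by decide)]
    rw [e1, e2]
    rfl
  unfold good at hg
  simp only [Bool.and_eq_true] at hg
  obtain ⟨⟨⟨⟨⟨g1, g2⟩, g3⟩, g4⟩, g5⟩, g6⟩ := hg
  rw [← hZ] at g1 g2 g3 g4 g5 g6
  rw [← ht] at g2 g3 g4 g6
  rw [take_window _ _ _ _ (by omega)] at g2
  -- markers
  have mark : ∀ (M : List (Fin 3)) (r : ℕ) (i : ℕ),
      (∀ a b : Fin 3, a ≠ b → ∀ o < 13, ((h1 a ++ h1 b).drop o).take 10 ≠ M) →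
      (∀ e < t + 9, window (F n T) (n - 9 + e) 10 = M → n - 9 + e = r) →
      window (F n T) i 10 = M → i % m = r := by
    intro M r i hM1 hM2 hi
    have him : i % m < m := Nat.mod_lt _ (by omega)
    have hi2 : window (F n T) (i % m) 10 = M := by
      rw [← hi, hm]
      exact F_window_mod n T i 10
    by_cases hc : i % m + 10 ≤ n
    · exfalso
      rw [window_W n T hc] at hi2
      refine hM1 (W ((4 + i % m) / 13)) (W ((4 + i % m) / 13 + 1)) (W_ne _) ((4 + i % m) % 13)
        (Nat.mod_lt _ (by decide)) ?_
      rw [← window_block, ← window_block,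
        show 13 * ((4 + i % m) / 13 + 1) = 13 * ((4 + i % m) / 13) + 13 by ring,
        ← window_append, drop_window _ _ _ _ (by omega), take_window _ _ _ _ (by omega), ← hi2]
      congr 1
      omega
    · have h5 := hM2 (i % m - (n - 9)) (by omega)
      rw [show n - 9 + (i % m - (n - 9)) = i % m by omega] at h5
      exact h5 hi2
  have g4' : ∀ a b : Fin 3, a ≠ b → ∀ o < 13,
      ((h1 a ++ h1 b).drop o).take 10 ≠ window (F n T) (n - 9) 10 ∧
      ((h1 a ++ h1 b).drop o).take 10 ≠ window (F n T) (m - 1) 10 := by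
    intro a b hab o ho
    have h5 := List.all_eq_true.1 (List.all_eq_true.1 g4 a (List.mem_finRange a)) b
      (List.mem_finRange b)
    rw [Bool.or_eq_true] at h5
    rcases h5 with h5 | h5
    · exact absurd (by simpa using h5) hab
    · have h6 := List.all_eq_true.1 h5 o (List.mem_range.2 ho)
      rw [take_window _ _ _ _ (by omega), drop_window _ _ _ _ (by omega),
        show n - 9 + (t + 8) = m - 1 by omega, show t + 18 - (t + 8) = 10 by omega,
        Bool.and_eq_true] at h6
      constructor
      · intro h7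
        rw [h7] at h6
        simp at h6
      · intro h7
        rw [h7] at h6
        simp at h6
  have markI : ∀ i, window (F n T) i 10 = window (F n T) (n - 9) 10 → i % m = n - 9 := by
    intro i hi
    refine mark _ _ i (fun a b hab o ho => (g4' a b hab o ho).1) ?_ hi
    intro e he hwin
    have h5 := List.all_eq_true.1 g2 e (List.mem_range.2 he)
    rw [drop_window _ _ _ _ (by omega), take_window _ _ _ _ (by omega), hwin] at h5
    have h6 : e = 0 := by simpa using h5
    omega
  have markJ : ∀ i, window (F n T) i 10 = window (F n T) (m - 1) 10 → i % m = m - 1 := by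
    intro i hi
    refine mark _ _ i (fun a b hab o ho => (g4' a b hab o ho).2) ?_ hi
    intro e he hwin
    by_cases he8 : e = t + 8
    · omega
    exfalso
    have h5 := List.all_eq_true.1 g3 e (List.mem_range.2 (by omega))
    rw [drop_window _ _ _ _ (by omega), take_window _ _ _ _ (by omega),
      drop_window _ _ _ _ (by omega), show n - 9 + (t + 8) = m - 1 by omega,
      show t + 18 - (t + 8) = 10 by omega, hwin] at h5
    simp at h5
  -- reduction to `a < m`
  intro a' p hp hpm ha' hsq'
  obtain ⟨a, ham, ha, hsq⟩ : ∃ a, a < m ∧ a + 2 * p ≤ 2 * m ∧ Sq (F n T) a p := by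
    refine ⟨a' % m, Nat.mod_lt _ (by omega), ?_, ?_⟩
    · have := Nat.mod_le a' m
      omega
    · intro i hi
      have h5 := hsq' i hi
      rw [← F_mod n T (a' + i), ← F_mod n T (a' + p + i)] at h5
      rw [← F_mod n T (a' % m + i), ← F_mod n T (a' % m + p + i), hm, Nat.mod_add_mod,
        Nat.add_assoc, Nat.mod_add_mod, ← Nat.add_assoc]
      exact h5
  -- transport
  have fwd : ∀ q k, a ≤ q → q + k ≤ a + p → window (F n T) (q + p) k = window (F n T) q k := by
    intro q k hq hk
    apply window_congr
    intro i hi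
    have h5 := hsq (q + i - a) (by omega)
    rw [show a + (q + i - a) = q + i by omega, show a + p + (q + i - a) = q + p + i by omega] at h5
    exact h5.symm
  -- first and second halves contain no markers
  have noI1 : ¬ (a ≤ n - 9 ∧ n + 1 ≤ a + p) := by
    rintro ⟨x1, x2⟩
    exact mod_contra (Nat.mod_eq_of_lt (by omega)) (markI _ (fwd (n - 9) 10 x1 (by omega))) hp hpm
  have noJ1 : ¬ (a ≤ m - 1 ∧ m + 9 ≤ a + p) := by
    rintro ⟨x1, x2⟩
    exact mod_contra (Nat.mod_eq_of_lt (by omega)) (markJ _ (fwd (m - 1) 10 x1 (by omega))) hp hpm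
  have noI2 : ¬ (a + p ≤ n - 9 ∧ n + 1 ≤ a + 2 * p) := by
    rintro ⟨x1, x2⟩
    have h5 := fwd (n - 9 - p) 10 (by omega) (by omega)
    rw [show n - 9 - p + p = n - 9 by omega] at h5
    refine mod_contra (q := n - 9 - p) (markI _ h5.symm) ?_ hp hpm
    rw [show n - 9 - p + p = n - 9 by omega]
    exact Nat.mod_eq_of_lt (by omega)
  have noJ2 : ¬ (a + p ≤ m - 1 ∧ m + 9 ≤ a + 2 * p) := by
    rintro ⟨x1, x2⟩
    have h5 := fwd (m - 1 - p) 10 (by omega) (by omega)
    rw [show m - 1 - p + p = m - 1 by omega] at h5
    refine mod_contra (q := m - 1 - p) (markJ _ h5.symm) ?_ hp hpm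
    rw [show m - 1 - p + p = m - 1 by omega]
    exact Nat.mod_eq_of_lt (by omega)
  by_cases hW : a + 2 * p ≤ n
  · -- inside `W`
    refine W_sqf _ (4 + a) p rfl hp ?_
    intro i hi
    have h5 := hsq i hi
    rw [F_lo n T (by omega), F_lo n T (by omega)] at h5
    rw [Nat.add_assoc, h5]
    congr 1
    omega
  by_cases hA : n - 9 < a
  · by_cases hE : a + 2 * p ≤ m + 9
    · -- inside the zone
      exact (sqfB_window _ _ _).1 g1 a p hp (by omega) (by omega) hsq
    · -- the centre is in the second marker
      have c1 : m - 1 < a + p := by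
        by_contra hc
        exact noJ2 ⟨by omega, by omega⟩
      have c2 : a + p ≤ m + 8 := by
        by_contra hc
        exact noJ1 ⟨by omega, by omega⟩
      have h5 := List.all_eq_true.1 g6 (a + p - (n - 9) - (t + 9)) (List.mem_range.2 (by omega))
      rw [show t + 9 + (a + p - (n - 9) - (t + 9)) = a + p - (n - 9) by omega,
        take_window _ _ _ _ (by omega), drop_window _ _ _ _ (by omega), ← window_W_four,
        ← window_H, show 13 * 1 = 4 + 9 by ring, show 13 * 4 = 52 by ring,
        ← window_W' n T (show 9 + 52 ≤ n by omega),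
        show n + T.length + 9 = n - 9 + (a + p - (n - 9)) + (t + 18 - (a + p - (n - 9))) by omega,
        ← window_append, cen_window] at h5
      refine h5 p hp (by omega) (by omega) ?_
      rwa [show n - 9 + (a + p - (n - 9)) - p = a by omega]
  · -- the centre is in the first marker
    have c1 : n - 9 < a + p := by
      by_contra hc
      exact noI2 ⟨by omega, by omega⟩
    have c2 : a + p ≤ n := by
      by_contra hc
      exact noI1 ⟨by omega, by omega⟩
    have c3 : a + 2 * p ≤ m + 8 := by
      by_contra hc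
      exact noJ2 ⟨by omega, by omega⟩
    have h5 := List.all_eq_true.1 g5 (window W (l - 3) 4)
      (by have := mem_allWords (window W (l - 3) 4); rwa [length_window] at this)
    have h6 : sqfB (window W (l - 3) 4 ++ [W (l + 1)]) = true := by
      have h7 : window W (l - 3) 4 ++ [W (l + 1)] = window W (l - 3) (4 + 1) := by
        rw [window_append]
        congr 1
        show [W (l + 1)] = [W (l - 3 + 4 + 0)]
        rw [show l - 3 + 4 + 0 = l + 1 by omega]
      rw [h7, sqfB_window]
      exact W_noSq _ _
    rw [h6] at h5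
    have h7 := List.all_eq_true.1 h5 (a + p - (n - 9) - 1) (List.mem_range.2 (by omega))
    rw [show a + p - (n - 9) - 1 + 1 = a + p - (n - 9) by omega,
      take_window _ _ _ _ (by omega), drop_window _ _ _ _ (by omega), ← window_H,
      show 13 * (l - 3) = 4 + (n - 61) by omega, show 13 * 4 = 52 by ring,
      ← window_W n T (show n - 61 + 52 ≤ n by omega)] at h7
    have h8 : window (F n T) (n - 61) 52 ++ window (F n T) (n - 9) (a + p - (n - 9)) =
        window (F n T) (n - 61) (52 + (a + p - (n - 9))) := by
      rw [window_append, show n - 61 + 52 = n - 9 by omega]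
    rw [h8, show n - 9 + (a + p - (n - 9)) = n - 61 + (52 + (a + p - (n - 9))) by omega,
      cen_window] at h7
    refine h7 p hp (by omega) (by omega) ?_
    rwa [show n - 61 + (52 + (a + p - (n - 9))) - p = a by omega]

end Pool.Agent.helper19.MinSq
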