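import Pool.Agent.helper19.MinSq.Defs

/-!
# Short minimal squares and the exceptional lengths
-/

namespace Pool.Agent.helper19.MinSq

/-- Boolean test for minimal squares. -/
def minB (X : List (Fin 3)) : Bool :=
  ((List.range (2 * X.length)).all fun c => c == X.length ||
    cen ((X ++ X).take c).reverse [] ((X ++ X).drop c)) && cen X.reverse [] X.dropLast

/-- The periodic word. -/
def G (X : List (Fin 3)) (i : ℕ) : Fin 3 := X.getD (i % X.length) 0

theorem G_add (X : List (Fin 3)) (i : ℕ) : G X (i + X.length) = G X i := by
  unfold G
  rw [Nat.add_mod_right]

theorem window_G (X : List (Fin 3)) : window (G X) 0 X.length = X := by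
  apply List.ext_getElem
  · rw [length_window]
  · intro i h1 h2
    rw [getElem_window, Nat.zero_add]
    unfold G
    rw [Nat.mod_eq_of_lt h2, List.getD_eq_getElem _ _ h2]

theorem window_GG (X : List (Fin 3)) : window (G X) 0 (2 * X.length) = X ++ X := by
  rw [two_mul, window_append]
  congr 1
  · exact window_G X
  · conv_rhs => rw [← window_G X]
    apply window_congr
    intro i _
    rw [show 0 + X.length + i = 0 + i + X.length by ring, G_add]

theorem minB_iff' (X : List (Fin 3)) : minB X = true ↔
    ∀ a p, 0 < p → p < X.length → a + 2 * p ≤ 2 * X.length → ¬ Sq (G X) a p := by
  unfold minB
  rw [Bool.and_eq_true, List.all_eq_true]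
  have hd : X.dropLast = window (G X) (0 + X.length) (X.length - 1) := by
    rw [List.dropLast_eq_take]
    conv_lhs => rw [← window_G X, take_window _ _ _ _ (by rw [length_window]; omega),
      length_window]
    apply window_congr
    intro i _
    rw [show 0 + X.length + i = 0 + i + X.length by ring, G_add]
  constructor
  · rintro ⟨h1, h2⟩ a p hp hpm ha hsq
    by_cases hc : a + p = X.length
    · rw [hd] at h2
      conv at h2 => lhs; rw [← window_G X]
      rw [length_window, length_window] at h2
      rw [cen_window] at h2
      refine h2 p hp (by omega) (by omega) ?_
      rwa [show 0 + X.length - p = a by omega]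
    · have h3 := h1 (a + p) (List.mem_range.2 (by omega))
      rw [Bool.or_eq_true] at h3
      rcases h3 with h3 | h3
      · exact hc (by simpa using h3)
      · rw [← window_GG, take_window _ _ _ _ (by omega), drop_window _ _ _ _ (by omega),
          cen_window] at h3
        refine h3 p hp (by omega) (by omega) ?_
        rwa [show 0 + (a + p) - p = a by omega]
  · intro h
    constructor
    · intro c hc
      have hc' := List.mem_range.1 hc
      rw [Bool.or_eq_true]
      by_cases hcm : c = X.length
      · left
        simpa using hcm
      · right
        rw [← window_GG, take_window _ _ _ _ (by omega), drop_window _ _ _ _ (by omega),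
          cen_window]
        intro p hp h1 h2
        exact h _ p hp (by omega) (by omega)
    · rw [hd]
      have h5 : X.reverse = (window (G X) 0 X.length).reverse := by rw [window_G]
      rw [h5, cen_window]
      intro p hp h1 h2
      exact h _ p hp (by omega) (by omega)

theorem minB_iff (X : List (Fin 3)) (hX : 0 < X.length) :
    minB X = true ↔ MinimalSquare (X ++ X) := by
  rw [minB_iff']
  have h := minSq_iff (G X) X.length hX (G_add X)
  rw [window_G] at h
  exact h.symm

/-- Words giving short minimal squares. -/
def small : List (ℕ × ℕ) := [(1, 0), (2, 3), (3, 21), (4, 57), (6, 624), (8, 5241), (11, 152661), (12, 456654), 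
  (13, 1274592), (15, 12364869), (16, 36889887), (18, 332893776), (19, 929879166), 
  (20, 2785671138), (21, 8988365289), (22, 26892720633), (23, 81131589093), (24, 225639431490), 
  (25, 728055249834), (26, 2184110587659), (27, 6552664021623), (28, 19713596313279), 
  (29, 58814396586093), (30, 176443134596436), (31, 532304350562496), (32, 1592298689361492), 
  (33, 4790735060210202), (34, 13323778645910655), (35, 43113676995115707), 
  (36, 128972820944412669), (37, 386908655874097944), (38, 1160784773606596647), 
  (39, 3492204463710504084), (40, 10418793929638685742), (41, 31256371981956917163), 
  (42, 94296118806696547983), (43, 281306622306002045385), (44, 846190561776541515030), 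
  (45, 2538579842537571826104), (46, 7615541633551020925599), (47, 22911986105938795344951), 
  (48, 68539704573779449135104), (49, 205629540290105378295180), (50, 615219188280839151613176), 
  (51, 1855886734371574779885318), (52, 5536972524399372625323297), 
  (53, 16655190007148158165647933), (54, 49968020086215358951546401), 
  (55, 149900601698003859641844519), (56, 449701803362914886899494624), 
  (57, 1345484365224767299979378832), (58, 4059138758699970085530920052), 
  (59, 12176366990841149044250645850), (60, 36425729066673297795257322939), 
  (61, 109274427367704039240718340214), (62, 327839905516463943596998188762), 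
  (63, 986301683011332672837780733554), (64, 2942575135267606360941886799052), 
  (65, 8827722645970503228680606768553), (66, 26632009121561308704684268712973), 
  (67, 79449298941948588841346278435335), (68, 239687877222265838125379235935115), 
  (69, 716969928242925073492820259345174), (70, 2150853893610601093900279960522269), 
  (71, 6471021615754434826449054236902581), (72, 19357636993312234181369961868974174), 
  (73, 58075855750930604958371868199706730), (74, 173756070180369497539645603895518806), 
  (75, 524157230149795664600858987880531108), (76, 1563804583574142302193077877283943007), 
  (77, 4717780519865626719850698579752112747), (78, 14074204959677772234219963616039373961), 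
  (79, 42459988386301131993138549938252901621), (80, 127009071878457853560774624912274623294), 
  (81, 382113529696686676466996855777943394779), (82, 1146321899060113350865438351985980922781), 
  (83, 3439021730977690579717453964721974439909), (84, 10316897055248530649303427430594312191927), 
  (85, 30862324343842613990238993649281590558466), 
  (86, 92591671028145007742541003956214111438054), 
  (87, 277775250457942291042913490527732469093900), 
  (88, 835675926103866746226929996067105076244148), 
  (89, 2493209613557431350512869192477420945293525), 
  (90, 7521665990233479661726020003698580729679545), 
  (91, 22565002668697056150949884034104111528801291), 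
  (92, 62804394615888422561945596242590347886924946), 
  (93, 188270195027912792199697474922159735583728451), 
  (94, 568564428337785626225001509564740723403353992), 
  (95, 1707186539744981394180487894325612054294934135), 
  (96, 5116910973677914381895393842974520201804460211), 
  (97, 15364956358912387708993442696267193721916174256), 
  (98, 46053718745328841590258991229572361907501542946)]

theorem small_min : small.all (fun q => minB (dec q.1 q.2)) = true := by decide +kernel

theorem small_cover : ∀ m < 99, 0 < m → m ∉ [5, 7, 9, 10, 14, 17] → ∃ q ∈ small, q.1 = m := by
  decide +kernel

theorem exists_small (m : ℕ) (hm : m < 99) (h0 : 0 < m) (hm' : m ∉ [5, 7, 9, 10, 14, 17]) :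
    ∃ w : List (Fin 3), w.length = 2 * m ∧ MinimalSquare w := by
  obtain ⟨q, hq, rfl⟩ := small_cover m hm h0 hm'
  have h1 := List.all_eq_true.1 small_min q hq
  refine ⟨dec q.1 q.2 ++ dec q.1 q.2, ?_, (minB_iff _ (by rwa [length_dec])).1 h1⟩
  rw [List.length_append, length_dec]
  ring

end Pool.Agent.helper19.MinSq
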