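import Pool.Agent.helper19.MinSq.TabDef

/-!
# Connecting words: verification, letter 1
-/

namespace Pool.Agent.helper19.MinSq

theorem tab_good1 : (tab 1).all (fun q => good 1 (dec q.1 q.2)) = true := by decide +kernel

end Pool.Agent.helper19.MinSq
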