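import Pool.Agent.helper19.MinSq.Tab0
import Pool.Agent.helper19.MinSq.Tab1
import Pool.Agent.helper19.MinSq.Tab2

/-!
# Connecting words: verification
-/

namespace Pool.Agent.helper19.MinSq

theorem tab_good : ∀ d, ∀ q ∈ tab d, good d (dec q.1 q.2) = true := by
  intro d
  fin_cases d
  · exact List.all_eq_true.1 tab_good0
  · exact List.all_eq_true.1 tab_good1
  · exact List.all_eq_true.1 tab_good2

theorem tab_cover : ∀ d, ∀ r < 13, ∃ q ∈ tab d, q.1 % 13 = r ∧ 5 ≤ q.1 ∧ q.1 ≤ 29 := by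
  decide +kernel

end Pool.Agent.helper19.MinSq
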