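import Pool.Agent.helper19.MinSq.W

/-!
# Connecting words
-/

namespace Pool.Agent.helper19.MinSq

/-- The connecting words: pairs (length, digits), for the three possible next letters. -/
def tab : Fin 3 → List (ℕ × ℕ) := ![
   [(13, 1273757), (27, 6132771640319), (28, 18290674943159), (16, 34619675), (17, 103858745), (5, 194), (19, 935547035), (7, 1760), (21, 8420076419), (22, 25259795627), (23, 75213146354), (24, 227338132604), (12, 427388)],
   [(13, 1282164), (27, 6092341526697), (28, 18398314920957), (29, 54872024829477), (17, 103859025), (18, 311576640), (6, 582), (20, 2806692135), (21, 8363360499), (22, 25090089081), (23, 75774525585), (11, 142467), (12, 427776)],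
   [(13, 1273771), (27, 6138234851275), (28, 18398265171085), (29, 55239629152051), (17, 103855384), (18, 309523051), (6, 586), (20, 2785707145), (21, 8412581125), (22, 25090089085), (23, 75213143830), (11, 141634), (12, 427402)]]

/-- The zone around a connecting word. -/
def zone (d : Fin 3) (T : List (Fin 3)) : List (Fin 3) := (h1 d).take 9 ++ T ++ (h1 0).drop 4

/-- The tests for a connecting word. -/
def good (d : Fin 3) (T : List (Fin 3)) : Bool :=
  sqfB (zone d T) &&
  ((List.range (T.length + 9)).all fun e => e == 0 ||
    !(((zone d T).drop e).take 10 == (zone d T).take 10)) &&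
  ((List.range (T.length + 8)).all fun e =>
    !(((zone d T).drop e).take 10 == (zone d T).drop (T.length + 8))) &&
  ((List.finRange 3).all fun a => (List.finRange 3).all fun b => a == b ||
    (List.range 13).all fun o =>
      !(((h1 a ++ h1 b).drop o).take 10 == (zone d T).take 10) &&
      !(((h1 a ++ h1 b).drop o).take 10 == (zone d T).drop (T.length + 8))) &&
  ((allWords 4).all fun v => !sqfB (v ++ [d]) || (List.range 9).all fun c =>
    cen (H v ++ (zone d T).take (c + 1)).reverse [] ((zone d T).drop (c + 1))) &&
  ((List.range 9).all fun c =>
    cen ((zone d T).take (T.length + 9 + c)).reverse []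
      ((zone d T).drop (T.length + 9 + c) ++ H [1, 2, 1, 0]))

end Pool.Agent.helper19.MinSq
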