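import Pool.Agent.helper19.MinSq.Defs

/-!
# The fixed point of Leech's square-free morphism
-/

namespace Pool.Agent.helper19.MinSq

/-- The image of `0`. -/
def hh (j : ℕ) : Fin 3 := ([0, 1, 2, 1, 0, 2, 1, 2, 0, 1, 2, 1, 0] : List (Fin 3)).getD j 0

/-- The infinite word. -/
def W : ℕ → Fin 3
  | 0 => 0
  | n + 1 => W ((n + 1) / 13) + hh ((n + 1) % 13)
decreasing_by exact Nat.div_lt_self (Nat.succ_pos n) (by decide)

theorem W_zero : W 0 = 0 := by rw [W]

theorem W_succ (n : ℕ) : W (n + 1) = W ((n + 1) / 13) + hh ((n + 1) % 13) := by rw [W]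

theorem W_eq (n : ℕ) : W n = W (n / 13) + hh (n % 13) := by
  rcases n with _ | n
  · show W 0 = W 0 + hh 0
    show W 0 = W 0 + 0
    rw [add_zero]
  · exact W_succ n

theorem W_mul_add (b j : ℕ) (hj : j < 13) : W (13 * b + j) = W b + hh j := by
  rw [W_eq (13 * b + j), show (13 * b + j) / 13 = b by omega, show (13 * b + j) % 13 = j by omega]

/-- The image of a letter. -/
def h1 (a : Fin 3) : List (Fin 3) := (List.range 13).map fun j => a + hh j

/-- The morphism. -/
def H (v : List (Fin 3)) : List (Fin 3) := v.flatMap h1

theorem window_block (b : ℕ) : window W (13 * b) 13 = h1 (W b) := by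
  unfold window h1
  refine List.map_congr_left fun j hj => ?_
  exact W_mul_add b j (List.mem_range.1 hj)

theorem window_H (b k : ℕ) : window W (13 * b) (13 * k) = H (window W b k) := by
  induction k generalizing b with
  | zero => rfl
  | succ k ih =>
    rw [show 13 * (k + 1) = 13 + 13 * k by ring, window_append, window_block,
      show 13 * b + 13 = 13 * (b + 1) by ring, ih, show k + 1 = 1 + k by ring, window_append]
    show _ = (window W b 1 ++ window W (b + 1) k).flatMap h1
    rw [List.flatMap_append]
    congr 1

/-- Synchronization. -/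
theorem sync : ∀ a b c : Fin 3, ∀ o : Fin 13, o.val ≠ 0 → ∃ j : Fin 13,
    a + hh j ≠ if o.val + j.val < 13 then b + hh (o + j) else c + hh (o + j - 13) := by
  decide +kernel

/-- All words of a given length. -/
def allWords : ℕ → List (List (Fin 3))
  | 0 => [[]]
  | n + 1 => (allWords n).flatMap fun w => [0 :: w, 1 :: w, 2 :: w]

theorem mem_allWords (w : List (Fin 3)) : w ∈ allWords w.length := by
  induction w with
  | nil => exact List.mem_singleton.2 rfl
  | cons a w ih =>
    rw [List.length_cons, allWords, List.mem_flatMap]
    refine ⟨w, ih, ?_⟩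
    fin_cases a <;> simp

theorem short : ∀ n < 6, (allWords n).all (fun v => !sqfB v || sqfB (H v)) = true := by
  decide +kernel

theorem sqfB_H (v : List (Fin 3)) (hv : v.length ≤ 5) (h : sqfB v = true) : sqfB (H v) = true := by
  have h2 := List.all_eq_true.1 (short v.length (by omega)) v (mem_allWords v)
  rw [h] at h2
  exact h2

/-- The word `W` has no squares. -/
theorem W_sqf (e : ℕ) : ∀ a p, a + 2 * p = e → 0 < p → ¬ Sq W a p := by
  induction e using Nat.strong_induction_on with
  | _ e ih =>
    intro a p he hp hsq
    have hno : ∀ b k, b + k < e → NoSq W b k := by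
      intro b k hbk b' p' hp' hb' hb'' hsq'
      exact ih (b' + 2 * p') (by omega) b' p' rfl hp' hsq'
    by_cases hp24 : p ≤ 24
    · -- short squares
      have h1 : NoSq W (a / 13) ((e - 1) / 13 + 1 - a / 13) := hno _ _ (by omega)
      have h2 := (sqfB_window _ _ _).2 h1
      have h3 := sqfB_H _ (by rw [length_window]; omega) h2
      rw [← window_H, sqfB_window] at h3
      exact h3 a p hp (by omega) (by omega) hsq
    · -- long squares
      push Not at hp24
      obtain ⟨t, ht⟩ : ∃ t, t = (a + 12) / 13 := ⟨_, rfl⟩
      have ht1 : a ≤ 13 * t := by omega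
      have ht2 : 13 * t ≤ a + 12 := by omega
      have key : ∀ j < p, 13 * t + j < a + p → W (13 * t + j) = W (13 * t + j + p) := by
        intro j _ hj
        have h4 := hsq (13 * t + j - a) (by omega)
        rw [show a + (13 * t + j - a) = 13 * t + j by omega,
          show a + p + (13 * t + j - a) = 13 * t + j + p by omega] at h4
        exact h4
      have hdiv : p % 13 = 0 := by
        by_contra hne
        obtain ⟨j, hj⟩ := sync (W t) (W (t + p / 13)) (W (t + p / 13 + 1))
          ⟨p % 13, Nat.mod_lt _ (by decide)⟩ hne
        apply hj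
        have hj13 := j.isLt
        have h4 := key j (by omega) (by omega)
        rw [W_mul_add t j hj13] at h4
        rw [h4]
        split_ifs with h5
        · simp only at h5 ⊢
          rw [← W_mul_add _ _ h5]
          congr 1
          omega
        · simp only at h5 ⊢
          rw [← W_mul_add _ _ (by omega)]
          congr 1
          omega
      obtain ⟨P, rfl⟩ : ∃ P, p = 13 * P := ⟨p / 13, by omega⟩
      refine ih (t + 2 * P) (by omega) t P rfl (by omega) ?_
      intro j hj
      have h4 := key (13 * j) (by omega) (by omega)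
      have h5 : ∀ b, W (13 * b) = W b := by
        intro b
        have := W_mul_add b 0 (by decide)
        rw [add_zero] at this
        rw [this]
        show W b + 0 = W b
        rw [add_zero]
      rw [show 13 * t + 13 * j = 13 * (t + j) by ring,
        show 13 * (t + j) + 13 * P = 13 * (t + P + j) by ring, h5, h5] at h4
      exact h4

theorem W_noSq (a n : ℕ) : NoSq W a n := fun b p hp _ _ hsq => W_sqf _ b p rfl hp hsq

theorem W_ne (b : ℕ) : W b ≠ W (b + 1) := by
  intro h
  refine W_sqf _ b 1 rfl Nat.one_pos ?_
  intro i hi
  obtain rfl : i = 0 := by omega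
  exact h

end Pool.Agent.helper19.MinSq
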